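import Pool.Agent.H83.Eq2

set_option autoImplicit false

namespace Pool.Agent.Results.MP_60e7f9_lc.Q1Every

open Cardinal Pool.Agent.H83.SsDefs Pool.Agent.H83.EqDefs

theorem result : ¬ ∀ b, Divg b → bEq b < nonE :=
  fun h => absurd (h _ H83.Eq2.div_two) (not_lt.2 H83.Eq2.nonE_le)

end Pool.Agent.Results.MP_60e7f9_lc.Q1Every
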