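import Pool.Agent.H83.Eq2

set_option autoImplicit false

namespace Pool.Agent.Results.MP_60e7f9_lc.Q1Some

open Cardinal Pool.Agent.H83.SsDefs Pool.Agent.H83.EqDefs

theorem result :
    dLc (fun k => k + 2) (fun k => k + 1) < nonE → ∃ b, Divg b ∧ bEq b < nonE :=
  fun h => ⟨_, H83.Eq2.div_id, lt_of_le_of_lt (H83.Eq1.bEq_le _ _ (fun k => Nat.succ_pos k)
    (fun k => Nat.lt_succ_self _)) h⟩

end Pool.Agent.Results.MP_60e7f9_lc.Q1Some
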