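import Pool.Agent.H83.Eq2

set_option autoImplicit false

namespace Pool.Agent.Results.MP_60e7f9_lc.Q2Some

open Cardinal Pool.Agent.H83.SsDefs Pool.Agent.H83.EqDefs

theorem result (c h : ℕ → ℕ) (h1 : ∀ n, 1 ≤ h n) (h2 : ∀ n, (h n + 1) ^ (h n + 1) ≤ c n) :
    ∃ b, Divg b ∧ bLc c h ≤ dEq b :=
  H83.Eq1.bLc_le c h h1 h2

end Pool.Agent.Results.MP_60e7f9_lc.Q2Some
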